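import Mathlib
import Pool.Agent.U424.CC.Main

/-!
# Translates of polynomials with clustered critical points are hyperbolic outside small sets

Let `T` be a monic polynomial of degree `N ≥ 2`. We call `T` `q`-clustered if every critical point of
`T` has mean square distance at most `q ^ 2` to the `N - 1` critical points of `T` (counted with
multiplicity). Examples: all critical points have mutual distances at most `q`; or `T` is centred and
all critical points lie in the disc `|z| ≤ q / √2`. There may be `N - 1` different critical points,
in arbitrary position, and nothing is assumed about the critical values.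

For every `q < 1` there is a constant `K` such that for EVERY `q`-clustered `T` of any degree `N`:

(1) the set of all complex numbers `a` for which `T + a` is not hyperbolic has area at most
`K log N / N`;

(2) for every `a` there is a `t` with `|t| ≤ K log N / N` such that `T + a + t` is hyperbolic.

Method. The derivative is exponentially small on a disc around the critical points, so all critical
values agree up to an exponentially small error; let `w` be the common value of `T + a` at the
critical points. Where `|T'|` is less than `N ^ (-2)` the point `w` is nearly fixed and all critical
points converge to an attracting cycle. The set where `N ^ (-2) ≤ |T'| ≤ N ^ 10` has area of order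
`log N / N` by the area formula for the polynomial `T'` and the lower bound of its logarithmic
derivative outside of the disc. Where `|T'|` is larger, the second iterate is an expanding function
of the parameter, and the critical points escape for all `a` outside a set of area `N ^ (-10)`.
-/

set_option autoImplicit false

open MeasureTheory Polynomial Filter Topology

namespace Pool.Agent.Results.MP_28f8a1_an.ClusteredCriticalPoints

/-- The mean square distance of `z` to the critical points of `T`, counted with multiplicity. -/
noncomputable def meanSquareDistance (T : ℂ[X]) (z : ℂ) : ℝ :=
  ((derivative T).roots.map fun c => ‖z - c‖ ^ 2).sum / ((T.natDegree : ℝ) - 1)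

/-- `T` is monic of degree at least two, and every critical point of `T` has mean square distance at
most `q ^ 2` to the critical points of `T`. -/
def Clustered (q : ℝ) (T : ℂ[X]) : Prop :=
  T.Monic ∧ 2 ≤ T.natDegree ∧
    ∀ c : ℂ, (derivative T).eval c = 0 → meanSquareDistance T c ≤ q ^ 2

/-- The orbit of `c` converges to the cycle of a sink `x` of period `n` of `T`. -/
def TendsToSink (T : ℂ[X]) (c : ℂ) : Prop :=
  ∃ n : ℕ, 0 < n ∧ ∃ x : ℂ, (fun z => T.eval z)^[n] x = x ∧
    ‖deriv ((fun z => T.eval z)^[n]) x‖ < 1 ∧
    Tendsto (fun k : ℕ => (fun z => T.eval z)^[n * k] c) atTop (𝓝 x)

/-- `T` is hyperbolic: every critical point escapes to infinity or tends to a sink. -/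
def Hyperbolic (T : ℂ[X]) : Prop :=
  ∀ c : ℂ, (derivative T).eval c = 0 →
    Tendsto (fun k : ℕ => ‖(fun z => T.eval z)^[k] c‖) atTop atTop ∨ TendsToSink T c

/-- `log N / N` for the degree `N` of `T`. -/
noncomputable def rate (T : ℂ[X]) : ℝ := Real.log T.natDegree / T.natDegree

/-- **Translates of polynomials with clustered critical points.** For all translates `T + a` outside
a set of small area, and for one at a small distance from every `T + a`, the polynomial is
hyperbolic, uniformly in all clustered polynomials `T`. -/
theorem result (q : ℝ) (h0 : 0 < q) (h1 : q < 1) :
    ∃ K : ℝ, 0 < K ∧ ∀ T : ℂ[X], Clustered q T →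
      volume {a : ℂ | ¬ Hyperbolic (T + C a)} ≤ ENNReal.ofReal (K * rate T) ∧
      ∀ a : ℂ, ∃ t : ℂ, ‖t‖ ≤ K * rate T ∧ Hyperbolic (T + C (a + t)) := by
  obtain ⟨K, hK, H⟩ := Pool.Agent.U424.CC.main h0 h1
  refine ⟨K, hK, fun T hT => ?_⟩
  exact H T hT.1 hT.2.1 hT.2.2

end Pool.Agent.Results.MP_28f8a1_an.ClusteredCriticalPoints
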