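import Mathlib
import Pool.Agent.U818.FC.Final

/-!
# Hyperbolicity of polynomials of large degree with few critical points

A polynomial `F` of large degree `N` with at most `k` distinct critical points becomes hyperbolic
after a change of its constant coefficient by at most `O((log N / N) ^ (1 / k))`, and the area of the
non-hyperbolic constant coefficients is `O((log N / N) ^ (2 / k))`. The positions and multiplicities
of the critical points and the leading coefficient are arbitrary.
-/

set_option autoImplicit false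

open Polynomial Filter Topology MeasureTheory

namespace Pool.Agent.Results.MP_28f8a1_an.FewCriticalPoints

/-- The polynomial as a self-map of the plane. -/
def map (T : ℂ[X]) : ℂ → ℂ := fun w : ℂ => T.eval w

/-- The orbit of `z` escapes to infinity. -/
def Escapes (T : ℂ[X]) (z : ℂ) : Prop :=
  Tendsto (fun k : ℕ => ‖(map T)^[k] z‖) atTop atTop

/-- The orbit of `z` is attracted by a sink (attracting periodic point) of `T` of period at most
`K`. -/
def Attracted (K : ℕ) (T : ℂ[X]) (z : ℂ) : Prop :=
  ∃ n : ℕ, 0 < n ∧ n ≤ K ∧ ∃ x : ℂ, (map T)^[n] x = x ∧ ‖deriv ((map T)^[n]) x‖ < 1 ∧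
    Tendsto (fun k : ℕ => (map T)^[n * k] z) atTop (𝓝 x)

/-- Every critical point escapes or is attracted by a sink of period at most `K`. In particular `T`
is hyperbolic. -/
def Hyperbolic (K : ℕ) (T : ℂ[X]) : Prop :=
  ∀ c : ℂ, (derivative T).eval c = 0 → Escapes T c ∨ Attracted K T c

/-- The critical points of `F` lie in the disc of radius `M`, and `|F(0)| ≤ M`. There is no condition
on the leading coefficient. -/
def Normalized (M : ℝ) (F : ℂ[X]) : Prop :=
  (∀ c : ℂ, (derivative F).eval c = 0 → ‖c‖ ≤ M) ∧ ‖F.eval 0‖ ≤ M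

/-- (1) For all `k`, `M ≥ 1` there is `K` such that for all large `N` and all normalized polynomials
`F` of degree `N` with at most `k` distinct critical points the area of the set of the `t` in the
disc of radius `M` for which `F + t` is not hyperbolic is at most `K (log N / N) ^ (2 / k)` if
`k ≥ 3`, and at most `K (log N) ^ 2 / N` if `k ≤ 2`.

(2) For all such `F` there is `t` with `|t| ≤ 20 k M (96 k (k + 10) log N / N) ^ (1 / k)` for which
`F + t` is hyperbolic.

(3) More generally, for large `N` let `F` be a normalized polynomial of degree `N` whose critical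
values lie in a set `V` with at most `k` elements (the number of its critical points is arbitrary).
Then the area of the non-hyperbolic `t` is at most the sum over `v` in `V` of the areas of
`{|z - v| ≤ M, |z| ≤ 9 M, N ^ (-(k + 10)) ≤ |F'(z)| ≤ N ^ (k + 10)}`, up to an error `O(N ^ (-3))`.

In all parts, hyperbolicity includes that the critical points which do not escape are attracted by
cycles of length at most `k`. -/
theorem result (k : ℕ) (hk : 1 ≤ k) (M : ℝ) (hM : 1 ≤ M) :
    ∃ K : ℝ, ∃ n₀ : ℕ, ∀ N : ℕ, n₀ ≤ N → ∀ F : ℂ[X], F.natDegree = N → Normalized M F →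
      ({c : ℂ | (derivative F).eval c = 0}.ncard ≤ k →
        (3 ≤ k → volume {t : ℂ | ‖t‖ ≤ M ∧ ¬ Hyperbolic k (F + C t)} ≤
          ENNReal.ofReal (K * (Real.log N / N) ^ ((2 : ℝ) / k))) ∧
        (k ≤ 2 → volume {t : ℂ | ‖t‖ ≤ M ∧ ¬ Hyperbolic k (F + C t)} ≤
          ENNReal.ofReal (K * (Real.log N ^ 2 / N))) ∧
        ∃ t : ℂ, ‖t‖ ≤ 20 * k * M * (96 * k * (k + 10) * (Real.log N / N)) ^ ((1 : ℝ) / k) ∧
          Hyperbolic k (F + C t)) ∧
      ∀ V : Finset ℂ, V.card ≤ k → (∀ c : ℂ, (derivative F).eval c = 0 → F.eval c ∈ V) →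
        volume {t : ℂ | ‖t‖ ≤ M ∧ ¬ Hyperbolic k (F + C t)} ≤
          ∑ v ∈ V, volume {z : ℂ | ‖z - v‖ ≤ M ∧ ‖z‖ ≤ 9 * M ∧
            1 / (N : ℝ) ^ (k + 10) ≤ ‖(derivative F).eval z‖ ∧
            ‖(derivative F).eval z‖ ≤ (N : ℝ) ^ (k + 10)} + ENNReal.ofReal (K / (N : ℝ) ^ 3) := by
  obtain ⟨C₁, n₁, h₁⟩ := Pool.Agent.U818.FC.area hk hM
  obtain ⟨n₂, h₂⟩ := Pool.Agent.U818.FC.distance hk hM
  obtain ⟨n₃, h₃⟩ := eventually_atTop.1 (Pool.Agent.U818.FC.large_ev k M)
  have hk0 : (0 : ℝ) < k := by exact_mod_cast hk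
  set E : ℝ := Real.pi * k * (1 + 1024 * k * M ^ 2) with hE
  refine ⟨max C₁ E, max 1 (max n₁ (max n₂ n₃)), fun N hN F hF hn => ?_⟩
  have hN0 : 1 ≤ N := le_trans (le_max_left _ _) hN
  have hN1 : n₁ ≤ N := le_trans ((le_max_left _ _).trans (le_max_right _ _)) hN
  have hN2 : n₂ ≤ N :=
    le_trans ((le_max_left _ _).trans ((le_max_right _ _).trans (le_max_right _ _))) hN
  have hN3 : n₃ ≤ N :=
    le_trans ((le_max_right _ _).trans ((le_max_right _ _).trans (le_max_right _ _))) hN
  have hNpos : (0 : ℝ) < N := by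
    have : 0 < N := hN0
    exact_mod_cast this
  have hne : derivative F ≠ 0 := by
    rw [derivative_ne_zero, hF]
    omega
  have hcr : ∀ c ∈ (derivative F).roots, ‖c‖ ≤ M := fun c hc =>
    hn.1 c ((mem_roots hne).1 hc)
  have hset : {c : ℂ | (derivative F).eval c = 0} = ((derivative F).roots.toFinset : Set ℂ) := by
    ext c
    simp only [Set.mem_ofPred_eq, Finset.mem_coe, Multiset.mem_toFinset, mem_roots hne, IsRoot.def]
  have hlog : 0 ≤ Real.log N := Real.log_natCast_nonneg _
  constructor
  · intro hcard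
    rw [hset, Set.ncard_coe_finset] at hcard
    obtain ⟨a1, a2⟩ := h₁ F (by rw [hF]; exact hN1) hcard hcr hn.2
    obtain ⟨t, ht1, ht2⟩ := h₂ F (by rw [hF]; exact hN2) hcard hcr hn.2
    rw [hF] at a1 a2 ht1
    refine ⟨fun h => (a1 h).trans (ENNReal.ofReal_le_ofReal ?_),
      fun h => (a2 h).trans (ENNReal.ofReal_le_ofReal ?_), t, ht1.trans (le_of_eq ?_), ht2⟩
    · exact mul_le_mul_of_nonneg_right (le_max_left _ _) (by positivity)
    · exact mul_le_mul_of_nonneg_right (le_max_left _ _) (by positivity)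
    · have h4 : 48 * k * (10 * M) ^ k * (2 * k) ^ k * (2 * (k + 10)) * (Real.log N / N) =
          (20 * k * M) ^ k * (96 * k * (k + 10) * (Real.log N / N)) := by
        have h5 : (20 * k * M) ^ k = (10 * M) ^ k * (2 * (k : ℝ)) ^ k := by
          rw [← mul_pow]
          congr 1
          ring
        rw [h5]
        ring
      rw [h4, Real.mul_rpow (by positivity) (by positivity)]
      congr 1
      rw [← Real.rpow_natCast, ← Real.rpow_mul (by positivity), mul_one_div_cancel hk0.ne',
        Real.rpow_one]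
  · intro V hV hVc
    have hL : Pool.Agent.U818.FC.Large k M F.natDegree := by rw [hF]; exact h₃ N hN3
    have h := Pool.Agent.U818.FC.reduction F hk hM hL hcr hn.2 V hV
      (fun c hc => hVc c ((mem_roots hne).1 hc)) (r := M) le_rfl
    rw [hF] at h
    refine h.trans (add_le_add (le_of_eq ?_) (ENNReal.ofReal_le_ofReal ?_))
    · refine Finset.sum_congr rfl (fun v _ => ?_)
      simp only [Pool.Agent.U818.FC.zoneSet, hF]
      rw [Pool.Agent.U818.FC.exp_log_pow hN0, Pool.Agent.U818.FC.exp_neg_log_pow hN0]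
    · exact div_le_div_of_nonneg_right (le_max_right _ _) (by positivity)

end Pool.Agent.Results.MP_28f8a1_an.FewCriticalPoints
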