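import Mathlib
import Pool.Agent.U818.CV.Fib
import Pool.Agent.U818.CV.Cmp

/-!
# Coarse density of hyperbolicity and the number of critical values

A monic polynomial of degree `N` with `k` critical values is at distance `O (√k log N / N)` from the
hyperbolic polynomials. This applies to the polynomials with few critical values (Shabat and Chebyshev
polynomials, powers) and to all compositions of polynomials of small degree.
-/

set_option autoImplicit false

open Polynomial Filter Topology MeasureTheory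

namespace Pool.Agent.Results.MP_28f8a1_an.FewCriticalValues

/-- The polynomial as a self-map of the plane. -/
def map (T : ℂ[X]) : ℂ → ℂ := fun w : ℂ => T.eval w

/-- The orbit of `z` escapes to infinity. -/
def Escapes (T : ℂ[X]) (z : ℂ) : Prop :=
  Tendsto (fun k : ℕ => ‖(map T)^[k] z‖) atTop atTop

/-- The orbit of `z` is attracted by a sink (attracting periodic point) of `T`. -/
def Attracted (T : ℂ[X]) (z : ℂ) : Prop :=
  ∃ n : ℕ, 0 < n ∧ ∃ x : ℂ, (map T)^[n] x = x ∧ ‖deriv ((map T)^[n]) x‖ < 1 ∧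
    Tendsto (fun k : ℕ => (map T)^[n * k] z) atTop (𝓝 x)

/-- `T` is hyperbolic: every critical point escapes or is attracted by a sink. -/
def Hyperbolic (T : ℂ[X]) : Prop :=
  ∀ c : ℂ, (derivative T).eval c = 0 → Escapes T c ∨ Attracted T c

/-- The monic polynomial with roots `z i`. -/
noncomputable def withRoots {N : ℕ} (z : Fin N → ℂ) : ℂ[X] := ∏ i, (X - C (z i))

/-- Logarithmic area: the measure `dA(w) / |w| ^ 2` on the plane. It is invariant under all
multiplications `w ↦ b * w`, and the logarithmic area of the annulus `r ≤ |w| ≤ R` is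
`2 π log (R / r)`. -/
noncomputable def logArea : Measure ℂ :=
  (volume : Measure ℂ).withDensity (fun w => ENNReal.ofReal ((‖w‖ ^ 2)⁻¹))

/-- The critical values of `F` other than zero. -/
def values (F : ℂ[X]) : Set ℂ := {v : ℂ | v ≠ 0 ∧ ∃ c, (derivative F).eval c = 0 ∧ F.eval c = v}

/-- The composition `f 1 ∘ f 2 ∘ ... ∘ f m` of the polynomials in a list. -/
noncomputable def composition (fs : List ℂ[X]) : ℂ[X] := fs.foldr (fun f g => f.comp g) X

theorem hyperbolic_of {T : ℂ[X]} (hT : Pool.Agent.W751.CD.Hyp T) : Hyperbolic T := by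
  intro c hc
  rcases hT c hc with h | ⟨x, h1, h2, h3⟩
  · exact Or.inl h
  · refine Or.inr ⟨1, one_pos, x, h1, ?_, ?_⟩
    · rw [Function.iterate_one]; exact h2
    · simp only [one_mul]; exact h3

theorem card_J {N : ℕ} (hN : 2 ≤ N) (z : Fin N → ℂ) :
    (values (withRoots z)).ncard = (Pool.Agent.U818.CV.J (Pool.Agent.W751.CD.P z)).card := by
  have hd : derivative (Pool.Agent.W751.CD.P z) ≠ 0 := by
    intro h
    have h1 := derivative_eq_zero.1 h
    rw [Pool.Agent.W751.CD.P_natDegree] at h1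
    omega
  rw [← Set.ncard_coe_finset]
  congr 1
  ext b
  rw [Finset.mem_coe, Pool.Agent.U818.CV.mem_J hd]
  rfl

/-- (1) Let `z 1, …, z N`, `N ≥ 2`, be complex numbers such that the polynomial `F = ∏ (X - z i)` has
at most `k` critical values other than zero, `k ≥ 1`.

(a) If the `z i` are nonzero and their moduli have ratios at most `L`, then the polynomial with roots
`κ * z i` is hyperbolic for all complex `κ` outside a set of logarithmic area at most
`800 √k log (N L) / N` (in the whole plane); and `a * F` is hyperbolic for all complex `a` outside a set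
of logarithmic area at most `400 √k log (N L)`.

(b) If the `z i` have modulus at most `M`, `M ≥ 1`, and `1000 √k log (N M) / N ≤ ε ≤ 1`, then there are
`κ`, `τ` with `|κ - 1| ≤ ε`, `|τ| ≤ ε` such that the polynomial with roots `κ * z i + τ` is hyperbolic.

(2) If `F` is a composition of polynomials of degrees `d 1, …, d m ≥ 1`, then the number of its critical
values other than zero is at most `∑ (d j - 1)`.

(3) If `F`, of degree `N ≥ 2`, is a composition of any number of polynomials of degrees between `2` and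
`d`, and the `z i` have modulus at most `M`, `M ≥ 1`, then the conclusion of (b) holds for all `ε` with
`1500 √(d log N) log (N M) / N ≤ ε ≤ 1`. -/
theorem result :
    (∀ N : ℕ, 2 ≤ N → ∀ (z : Fin N → ℂ) (k : ℕ), 1 ≤ k → (values (withRoots z)).ncard ≤ k →
      (∀ L : ℝ, (∀ i, z i ≠ 0) → (∀ i j, ‖z i‖ ≤ L * ‖z j‖) →
        logArea {κ : ℂ | ¬ Hyperbolic (withRoots fun i => κ * z i)} ≤
            ENNReal.ofReal (800 * Real.sqrt k * Real.log (N * L) / N) ∧
        logArea {a : ℂ | ¬ Hyperbolic (C a * withRoots z)} ≤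
            ENNReal.ofReal (400 * Real.sqrt k * Real.log (N * L))) ∧
      ∀ M ε : ℝ, 1 ≤ M → (∀ i, ‖z i‖ ≤ M) → ε ≤ 1 →
        1000 * Real.sqrt k * Real.log (N * M) / N ≤ ε →
        ∃ κ τ : ℂ, ‖κ - 1‖ ≤ ε ∧ ‖τ‖ ≤ ε ∧ Hyperbolic (withRoots fun i => κ * z i + τ)) ∧
    (∀ N : ℕ, 2 ≤ N → ∀ (z : Fin N → ℂ) (fs : List ℂ[X]), (∀ f ∈ fs, 1 ≤ f.natDegree) →
      withRoots z = composition fs →
      (values (withRoots z)).ncard ≤ (fs.map fun f => f.natDegree - 1).sum) ∧
    ∀ d N : ℕ, 2 ≤ d → 2 ≤ N → ∀ (z : Fin N → ℂ) (fs : List ℂ[X]),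
      (∀ f ∈ fs, 2 ≤ f.natDegree ∧ f.natDegree ≤ d) → withRoots z = composition fs →
      ∀ M ε : ℝ, 1 ≤ M → (∀ i, ‖z i‖ ≤ M) → ε ≤ 1 →
        1500 * Real.sqrt (d * Real.log N) * Real.log (N * M) / N ≤ ε →
        ∃ κ τ : ℂ, ‖κ - 1‖ ≤ ε ∧ ‖τ‖ ≤ ε ∧ Hyperbolic (withRoots fun i => κ * z i + τ) := by
  have hcomp : ∀ N : ℕ, 2 ≤ N → ∀ (z : Fin N → ℂ) (fs : List ℂ[X]),
      (∀ f ∈ fs, 1 ≤ f.natDegree) → withRoots z = composition fs →
      (values (withRoots z)).ncard ≤ (fs.map fun f => f.natDegree - 1).sum := by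
    intro N hN z fs hfs h
    obtain ⟨h1, h2⟩ := Pool.Agent.U818.CV.vall_comps fs hfs
    have h3 : values (withRoots z) ⊆ Pool.Agent.U818.CV.vall (Pool.Agent.U818.CV.comps fs) := by
      rintro v ⟨-, c, hc, hv⟩
      rw [h] at hc hv
      exact ⟨c, hc, hv⟩
    exact (Set.ncard_le_ncard h3 h1).trans h2
  refine ⟨fun N hN z k hk hv => ⟨fun L h0 hL => ?_, fun M ε hM hz hε1 hε => ?_⟩, hcomp,
    fun d N hd hN z fs hfs h M ε hM hz hε1 hε => ?_⟩
  · rw [card_J hN] at hv
    obtain ⟨h1, h2⟩ := Pool.Agent.U818.CV.kap hN z h0 hL hk hv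
    have e1 : {κ : ℂ | ¬ Hyperbolic (withRoots fun i => κ * z i)} ⊆
        {κ : ℂ | ¬ Pool.Agent.W751.CD.Hyp (Pool.Agent.W751.CD.P fun i => κ * z i)} :=
      Set.compl_subset_compl.2 fun κ h => hyperbolic_of h
    have e2 : {a : ℂ | ¬ Hyperbolic (C a * withRoots z)} ⊆
        {a : ℂ | ¬ Pool.Agent.W751.CD.Hyp (C a * Pool.Agent.W751.CD.P z)} :=
      Set.compl_subset_compl.2 fun κ h => hyperbolic_of h
    exact ⟨(measure_mono e1).trans h1, (measure_mono e2).trans h2⟩
  · rw [card_J hN] at hv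
    obtain ⟨κ, τ, h1, h2, h3⟩ := Pool.Agent.U818.CV.ex hN z hM hz hε1 hk hv hε
    exact ⟨κ, τ, h1, h2, hyperbolic_of h3⟩
  · have hdeg : (Pool.Agent.U818.CV.comps fs).natDegree = N := by
      have h1 : Pool.Agent.U818.CV.comps fs = Pool.Agent.W751.CD.P z := h.symm
      rw [h1, Pool.Agent.W751.CD.P_natDegree]
    obtain ⟨h1, h2⟩ := Pool.Agent.U818.CV.sum_le hd hN fs hfs hdeg
    have h3 := hcomp N hN z fs (fun f hf => by have := (hfs f hf).1; omega) h
    rw [card_J hN] at h3
    have hN2 : (2 : ℝ) ≤ N := by exact_mod_cast hN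
    have hlog : 0 ≤ Real.log (N * M) := Real.log_nonneg (by nlinarith)
    obtain ⟨κ, τ, h4, h5, h6⟩ := Pool.Agent.U818.CV.ex hN z hM hz hε1 h1 h3 (le_trans (by gcongr) hε)
    exact ⟨κ, τ, h4, h5, hyperbolic_of h6⟩

end Pool.Agent.Results.MP_28f8a1_an.FewCriticalValues
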