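import Pool.Agent.U523.RC.Q

/-!
# Random compositions of polynomials are hyperbolic

Let `f 0, f 1, …` be independent random polynomials of degree `d ≥ 2` with the same law. We only
assume that the law has compact support in the space of the polynomials of degree `d` and that the
support contains a small disc `p + t`, `|t| < ε`, of translates of one polynomial `p` (for example, a
nonempty open set). There are no further hypotheses on the law; it may be concentrated near a single
polynomial, hyperbolic or not. Then the composition of `n` of the polynomials, of degree `d ^ n`, is
hyperbolic outside an event of probability at most `K θ ^ n`, `θ < 1`; almost surely the compositions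
are hyperbolic for all large `n`, in whatever order the polynomials are composed; and the critical
points which do not escape converge to cycles of bounded period with multiplier at most `K θ ^ n`.
In particular this holds for the compositions `(T + t 0) ∘ ⋯ ∘ (T + t (n - 1))`, for every polynomial
`T` of degree at least two and independent `t i`, uniformly distributed in a disc of any radius.

Proof. Let `J` be the set of the points which cannot escape under the polynomials of the support. It
is compact, every polynomial of the support maps it into itself, and the polynomials near `p` map a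
neighbourhood of `J` into `J`, and `J` deep into its interior. Every other point can escape. So
every orbit is absorbed by `J` or by a neighbourhood of infinity up to an exponentially small
probability; this applies to the critical values of each factor under the other factors. A
polynomial near `p` contracts inside `J`: composed with a small expansion about the image of a point it
still maps `J` into itself, so that the derivative of a composition of many factors is exponentially
small in the interior of `J` (Cauchy estimates).
-/

set_option autoImplicit false

open MeasureTheory Filter Topology Metric Set Polynomial ProbabilityTheory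
open Pool.Agent.U523.RC (poly compose HyperbolicWith unif ext)

namespace Pool.Agent.Results.MP_28f8a1_an.RandomCompositions

/-- **Random compositions of polynomials are hyperbolic.**
(1) Let `d ≥ 2` and let `μ` be a law on the coefficient vectors `(a 0, …, a d)` with compact support,
with `a d ≠ 0` on the support, such that the support contains the vectors `(a₀ 0 + t, a₀ 1, …, a₀ d)`,
`|t| < ε`, for some `a₀` and `ε > 0`. There are `K`, `θ < 1` and `M` such that for all independent
random vectors `A 0, A 1, …` of law `μ`, for every `n` and for all different indices `σ n 0, …,
σ n (n - 1)`, outside an event of probability at most `K θ ^ n` the composition of the polynomials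
with the coefficients `A (σ n k)`, `k < n`, has degree `d ^ n` and is hyperbolic: each of its critical
points escapes or converges to an attracting cycle, of period at most `M` and with a multiplier of
modulus at most `K θ ^ n`. Almost surely this holds for all large `n`.
(2) The same for the compositions of `T + t k`, `k < n`, with `t k` independent and uniformly
distributed in the disc of radius `ε`, for every polynomial `T` of degree at least two and every
`ε > 0`.
(3) For all `T` and `ε` as in (2) there is `M` such that for every `δ > 0` and all large `n` some
composition of `T + t k`, `k < n`, `|t k| < ε`, is hyperbolic, with attracting cycles of period at most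
`M` and of multiplier at most `δ`. -/
theorem result :
    (∀ d : ℕ, 2 ≤ d → ∀ μ : Measure (Fin (d + 1) → ℂ), IsProbabilityMeasure μ →
      IsCompact μ.support → (∀ a ∈ μ.support, a (Fin.last d) ≠ 0) →
      ∀ (a₀ : Fin (d + 1) → ℂ) (ε : ℝ), 0 < ε →
      (∀ t : ℂ, ‖t‖ < ε → a₀ + Pi.single 0 t ∈ μ.support) →
      ∃ (K θ : ℝ) (M : ℕ), 0 < K ∧ 0 < θ ∧ θ < 1 ∧
        ∀ (Ω : Type) [MeasurableSpace Ω] (P : Measure Ω) [IsProbabilityMeasure P]
          (A : ℕ → Ω → Fin (d + 1) → ℂ), (∀ i, Measurable (A i)) → iIndepFun A P →
          (∀ i, P.map (A i) = μ) → ∀ σ : ℕ → ℕ → ℕ, (∀ n, InjOn (σ n) (Iio n)) →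
            (∀ n, P {ω | ¬ ((compose (fun k => poly (A (σ n k) ω)) n).natDegree = d ^ n ∧
              HyperbolicWith M (K * θ ^ n) (compose (fun k => poly (A (σ n k) ω)) n))} ≤
              ENNReal.ofReal (K * θ ^ n)) ∧
            ∀ᵐ ω ∂P, ∀ᶠ n in atTop,
              (compose (fun k => poly (A (σ n k) ω)) n).natDegree = d ^ n ∧
              HyperbolicWith M (K * θ ^ n) (compose (fun k => poly (A (σ n k) ω)) n)) ∧
    (∀ T : ℂ[X], 2 ≤ T.natDegree → ∀ ε : ℝ, 0 < ε →
      (∃ (K θ : ℝ) (M : ℕ), 0 < K ∧ 0 < θ ∧ θ < 1 ∧ ∀ n,
        Measure.pi (fun _ : Fin n => unif ε)
          {t | ¬ ((compose (fun k => T + C (ext t k)) n).natDegree = T.natDegree ^ n ∧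
            HyperbolicWith M (K * θ ^ n) (compose (fun k => T + C (ext t k)) n))} ≤
          ENNReal.ofReal (K * θ ^ n)) ∧
      ∃ M : ℕ, ∀ δ : ℝ, 0 < δ → ∃ N : ℕ, ∀ n, N ≤ n → ∃ t : ℕ → ℂ, (∀ k, ‖t k‖ < ε) ∧
        HyperbolicWith M δ (compose (fun k => T + C (t k)) n)) :=
  ⟨fun _ hd μ hμ hc hl a₀ ε hε hs => Pool.Agent.U523.RC.partA hd μ hμ hc hl a₀ ε hε hs,
    fun T hT ε hε => ⟨Pool.Agent.U523.RC.partB T hT ε hε, Pool.Agent.U523.RC.partC T hT ε hε⟩⟩

end Pool.Agent.Results.MP_28f8a1_an.RandomCompositions
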